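import Pool.Agent.helper5.SYM.SpecB

/-!
Row sy:IV2 (MP_45d809_mp): a vertex all of whose darts are fixed is impossible.
-/

set_option autoImplicit false

namespace Pool.Agent.SYM
open Finset CT Polynomial

theorem IV2_symm {V : Type} {G : SimpleGraph V} (σ : G ≃g G) (d : G.Dart) :
    sd σ d.symm = d.symm ↔ sd σ d = d := by
  have h : sd σ d.symm = (sd σ d).symm := rfl
  rw [h]
  constructor
  · intro h1
    have h2 := congrArg SimpleGraph.Dart.symm h1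
    rwa [SimpleGraph.Dart.symm_symm, SimpleGraph.Dart.symm_symm] at h2
  · intro h1
    rw [h1]

theorem IV2_walk {V : Type} {G : SimpleGraph V} {S : V → Prop}
    (h : ∀ u v, G.Adj u v → S u → S v) : ∀ u v, G.Walk u v → S u → S v := by
  intro u v p
  induction p with
  | nil => exact id
  | cons hadj _ ih => exact fun h1 => ih (h _ _ hadj h1)

theorem IV2 (hLNK1 : LNK1_stmt) (hEQA : EQA_stmt) (hPRT : PRT_stmt) (hSPL : SPL_stmt)
    (hRES : RES_stmt) (hYF1 : YF1_stmt) (hBG1 : BG1_stmt) (hEVG : EVG_stmt) : IV2_stmt := by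
  intro V _ _ G σ w hF h7 hC hN3 hσ hw
  have : Nonempty V := ⟨w⟩
  have : Finite G.Dart := Finite.of_injective (fun d : G.Dart => d.toProd)
    (SimpleGraph.Dart.toProd_injective)
  obtain ⟨hY1, hY2, hY3, hY4⟩ := hYF1 V G σ hσ
  -- every vertex has a neighbour
  have hnb : ∀ v, ∃ u, G.Adj v u := by
    intro v
    have h1 : 0 < Nat.card {u // G.Adj v u} := by
      rw [hF v]
      norm_num
    obtain ⟨⟨u, hu⟩⟩ := (Nat.card_pos_iff.1 h1).1
    exact ⟨u, hu⟩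
  have hfx : ∀ v, (∃ d : G.Dart, d.fst = v ∧ sd σ d = d) → σ v = v := by
    rintro v ⟨d, h1, h2⟩
    have h3 := congrArg (fun d : G.Dart => d.fst) h2
    have h4 : σ d.fst = d.fst := h3
    rw [h1] at h4
    exact h4
  have hww : σ w = w := by
    obtain ⟨u, hu⟩ := hnb w
    exact hfx w ⟨⟨(w, u), hu⟩, rfl, hw _ rfl⟩
  have hthw : ∀ a, th σ a w = w := by
    intro a
    unfold th
    split_ifs
    · rfl
    · exact hww
  have h1 := hLNK1 V G w hF h7 hN3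
  have h2 := (hEQA V (ZMod 2) G (th σ) ⟨1, by simp⟩ hY2).2 w hthw h1
  obtain ⟨τ₀, ⟨hτ1, hτ2, hτ3⟩, h3⟩ := hPRT G.Dart
    (fun τ => IsTS τ ∧ (∀ a, Inv (th σ a) τ) ∧ gav τ (fun d => d.fst = w) = 1)
    (fun d => sd σ d ≠ d) h2
  have hτ4 : Inv σ τ₀ := (hY3 τ₀).1 hτ2
  -- splitting
  have hsplit : ∀ τ : G.Dart → G.Dart, IsTS τ → Inv σ τ →
      gav τ (fun d => d.fst = w) = gav τ (fun d => sd σ d = d) +
        gav τ (fun d => d.fst = w ∨ ¬ sd σ d = d) := by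
    intro τ hτ hi
    have h4 := hSPL G.Dart (fun d : G.Dart => d.symm) τ (fun d => d.fst = w)
      (fun d => sd σ d = d) (IV2_symm σ) (hY4 τ hτ hi)
    have h5 : (fun d : G.Dart => d.fst = w ∨ sd σ d = d) = fun d => sd σ d = d := by
      funext d
      exact propext ⟨fun h => h.elim (hw d) id, Or.inr⟩
    rw [h5] at h4
    exact h4
  have hres : ∀ τ : G.Dart → G.Dart, IsTS τ → (∀ d, sd σ d = d → τ d = τ₀ d) →
      gav τ (fun d => d.fst = w ∨ ¬ sd σ d = d) =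
        gav τ₀ (fun d => d.fst = w ∨ ¬ sd σ d = d) := by
    intro τ hτ hi
    refine hRES G.Dart (fun d : G.Dart => d.symm) τ τ₀ _ hτ.1 hτ1.1 ?_
    intro d hd
    push Not at hd
    exact hi d hd.2
  have h0 := hsplit τ₀ hτ1 hτ4
  rw [hτ3] at h0
  obtain ⟨R, J, K, C, e, α, hJ, hK, hR, hR1, hCi, hCR, hA, hcount⟩ := hBG1 V G σ hF hσ
  have h4 := hcount τ₀ hτ1 hτ4 (1 - gav τ₀ (fun d => d.fst = w ∨ ¬ sd σ d = d))
  have hKne : K.Nonempty := by
    by_contra hne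
    rw [Finset.not_nonempty_iff_eq_empty] at hne
    have hall : ∀ v, ∀ d : G.Dart, d.fst = v → sd σ d = d := by
      intro v
      obtain ⟨p⟩ := hC.preconnected w v
      refine IV2_walk (S := fun v => ∀ d : G.Dart, d.fst = v → sd σ d = d) ?_ w v p hw
      intro u x hux hu d hd
      by_contra hdn
      have h5 : sd σ (⟨(u, x), hux⟩ : G.Dart) = ⟨(u, x), hux⟩ := hu _ rfl
      have h6 : sd σ (⟨(u, x), hux⟩ : G.Dart).symm = (⟨(u, x), hux⟩ : G.Dart).symm :=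
        (IV2_symm σ _).2 h5
      have h7 : x ∈ K := (hK x).2 ⟨hfx x ⟨_, rfl, h6⟩, ⟨_, rfl, h6⟩, ⟨d, hd, hdn⟩⟩
      rw [hne] at h7
      exact absurd h7 (Finset.notMem_empty x)
    obtain ⟨v, hv⟩ := hσ.2
    obtain ⟨u, hu⟩ := hnb v
    exact hv (hfx v ⟨⟨(v, u), hu⟩, rfl, hall v _ rfl⟩)
  have h5 := hEVG (V × Fin 3) (R.toList.map l0) C (J.image l0) (K.image l0) e α hA
    (by
      have : 0 < (K.image l0).card := Finset.card_pos.2 (hKne.image _)
      omega)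
    (by simpa using hR1) (1 - gav τ₀ (fun d => d.fst = w ∨ ¬ sd σ d = d)) (by omega)
  rw [h5] at h4
  have h6 : Nat.card {τ : G.Dart → G.Dart // IsTS τ ∧ Inv σ τ ∧
      (∀ d, sd σ d = d → τ d = τ₀ d) ∧ gav τ (fun d => sd σ d = d) =
        1 - gav τ₀ (fun d => d.fst = w ∨ ¬ sd σ d = d)} =
      Nat.card {τ : G.Dart → G.Dart // (IsTS τ ∧ (∀ a, Inv (th σ a) τ) ∧
        gav τ (fun d => d.fst = w) = 1) ∧ ∀ d, ¬ sd σ d ≠ d → τ d = τ₀ d} := by
    refine Nat.card_congr (Equiv.subtypeEquivRight fun τ => ?_)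
    constructor
    · rintro ⟨a1, a2, a3, a4⟩
      refine ⟨⟨a1, (hY3 τ).2 a2, ?_⟩, fun d hd => a3 d (not_not.1 hd)⟩
      rw [hsplit τ a1 a2, hres τ a1 a3, a4]
      omega
    · rintro ⟨⟨a1, a2, a3⟩, a4⟩
      have a5 := (hY3 τ).1 a2
      have a6 : ∀ d, sd σ d = d → τ d = τ₀ d := fun d hd => a4 d (not_not.2 hd)
      refine ⟨a1, a5, a6, ?_⟩
      have a7 := hsplit τ a1 a5
      rw [hres τ a1 a6, a3] at a7
      omega
  rw [h6] at h4
  obtain ⟨m, hm⟩ := h3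
  rw [hm] at h4
  push_cast at h4
  have h8 : (2 : ZMod 2) = 0 := rfl
  rw [h8, zero_mul, zero_add] at h4
  exact one_ne_zero h4

end Pool.Agent.SYM
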