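import Pool.Agent.helper5.SYM.SpecA

/-!
Row sy:JL (MP_45d809_mp): labelings after a join.
-/

set_option autoImplicit false

namespace Pool.Agent.SYM
open Finset CT Polynomial

section
variable {D A : Type} [DecidableEq D]

/-- Clear the labels of `x`, `y`. -/
def JL_clr (x y : D) (Φ : D → A → Bool) : D → A → Bool := fun z =>
  if z = x ∨ z = y then (fun _ => false) else Φ z

/-- Put the labels `p`, `q` at `x`, `y`. -/
def JL_ext (x y : D) (p q : A → Bool) (Φ : D → A → Bool) : D → A → Bool := fun z =>
  if z = x then p else if z = y then q else Φ z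

theorem JL_clr_of {x y : D} (Φ : D → A → Bool) {z : D} (h1 : z ≠ x) (h2 : z ≠ y) :
    JL_clr x y Φ z = Φ z := by
  unfold JL_clr
  rw [if_neg]
  rintro (h | h)
  · exact h1 h
  · exact h2 h

theorem JL_clr_l {x y : D} (Φ : D → A → Bool) : JL_clr x y Φ x = fun _ => false := by
  unfold JL_clr
  rw [if_pos (Or.inl rfl)]

theorem JL_clr_r {x y : D} (Φ : D → A → Bool) : JL_clr x y Φ y = fun _ => false := by
  unfold JL_clr
  rw [if_pos (Or.inr rfl)]

theorem JL_ext_of {x y : D} (p q : A → Bool) (Φ : D → A → Bool) {z : D} (h1 : z ≠ x)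
    (h2 : z ≠ y) : JL_ext x y p q Φ z = Φ z := by
  unfold JL_ext
  rw [if_neg h1, if_neg h2]

theorem JL_ext_l {x y : D} (p q : A → Bool) (Φ : D → A → Bool) : JL_ext x y p q Φ x = p := by
  unfold JL_ext
  rw [if_pos rfl]

theorem JL_ext_r {x y : D} (p q : A → Bool) (Φ : D → A → Bool) (h : x ≠ y) :
    JL_ext x y p q Φ y = q := by
  unfold JL_ext
  rw [if_neg (Ne.symm h), if_pos rfl]

theorem JL_join_of {e : D → D} {x y z : D} (h1 : z ≠ x) (h2 : z ≠ y) (h3 : e z ≠ x)
    (h4 : e z ≠ y) : join e x y z = e z := by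
  unfold join
  rw [if_neg, if_neg h3, if_neg h4]
  rintro (h | h)
  · exact h1 h
  · exact h2 h

theorem JL_join_x {e : D → D} {x y z : D} (h1 : z ≠ x) (h2 : z ≠ y) (h3 : e z = x) :
    join e x y z = e y := by
  unfold join
  rw [if_neg, if_pos h3]
  rintro (h | h)
  · exact h1 h
  · exact h2 h

theorem JL_join_y {e : D → D} {x y z : D} (h1 : z ≠ x) (h2 : z ≠ y) (h3 : e z ≠ x)
    (h4 : e z = y) : join e x y z = e x := by
  unfold join
  rw [if_neg, if_neg h3, if_pos h4]
  rintro (h | h)
  · exact h1 h
  · exact h2 h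

variable [AddCommGroup A]

theorem JL_jv_of {e : D → D} {α : D → A} {x y z : D} {β : A} (h1 : z ≠ x) (h2 : z ≠ y)
    (h3 : e z ≠ x) (h4 : e z ≠ y) : jv e α x y β z = α z := by
  unfold jv
  rw [if_neg, if_neg h3, if_neg h4]
  rintro (h | h)
  · exact h1 h
  · exact h2 h

theorem JL_jv_x {e : D → D} {α : D → A} {x y z : D} {β : A} (h1 : z ≠ x) (h2 : z ≠ y)
    (h3 : e z = x) : jv e α x y β z = α z + β + α y := by
  unfold jv
  rw [if_neg, if_pos h3]
  rintro (h | h)
  · exact h1 h
  · exact h2 h

theorem JL_jv_y {e : D → D} {α : D → A} {x y z : D} {β : A} (h1 : z ≠ x) (h2 : z ≠ y)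
    (h3 : e z ≠ x) (h4 : e z = y) : jv e α x y β z = α z - β + α x := by
  unfold jv
  rw [if_neg, if_neg h3, if_pos h4]
  rintro (h | h)
  · exact h1 h
  · exact h2 h

theorem JL_jv_l {e : D → D} {α : D → A} {x y : D} {β : A} : jv e α x y β x = 0 := by
  unfold jv
  rw [if_pos (Or.inl rfl)]

theorem JL_jv_r {e : D → D} {α : D → A} {x y : D} {β : A} : jv e α x y β y = 0 := by
  unfold jv
  rw [if_pos (Or.inr rfl)]

end

theorem JL (hWT : WT_stmt) : JL_stmt := by
  intro D A _ _ _ _ e α x y β K he hα hxy hx hy hK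
  have hex : ∀ z, e z = x → z = e x := fun z h => by rw [← h, he]
  have hey : ∀ z, e z = y → z = e y := fun z h => by rw [← h, he]
  by_cases hexy : e x = y
  · -- the case of a loop
    have heyx : e y = x := by rw [← hexy, he]
    have hαy : α y = - α x := by rw [← hexy]; exact hα.1 x
    have hlv : lv e α x y β = wA (α x - β) := by
      unfold lv
      rw [if_pos hexy]
    rw [hlv, ← (hWT A (α x - β)).1, ← Nat.card_prod]
    refine Nat.card_congr ?_
    refine
      { toFun := fun Φ => (⟨Φ.1 y, ?_⟩, ⟨JL_clr x y Φ.1, ?_, ?_⟩)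
        invFun := fun q => ⟨JL_ext x y (fun g => q.1.1 (g + α x)) q.1.1 q.2.1, ?_, ?_, ?_⟩
        left_inv := ?_
        right_inv := ?_ }
    · obtain ⟨Φ, h1, h2, h3⟩ := Φ
      intro g
      have h4 := h1.1 x (g - β)
      rw [hexy, ← h3, sub_add_cancel] at h4
      show Φ y (g + (α x - β)) = Φ y g
      rw [← h4]
      congr 1
      abel
    · obtain ⟨Φ, h1, h2, h3⟩ := Φ
      constructor
      · intro d g
        by_cases hdx : d = x
        · subst hdx
          rw [join_left, JL_jv_l, add_zero]
        by_cases hdy : d = y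
        · subst hdy
          rw [join_right, JL_jv_r, add_zero]
        have h5 : e d ≠ x := fun h => hdy ((hex d h).trans hexy)
        have h6 : e d ≠ y := fun h => hdx ((hey d h).trans heyx)
        rw [JL_join_of hdx hdy h5 h6, JL_jv_of hdx hdy h5 h6, JL_clr_of _ h5 h6,
          JL_clr_of _ hdx hdy]
        exact h1.1 d g
      · intro d hd
        by_cases hdx : d = x
        · subst hdx
          exact JL_clr_l _
        by_cases hdy : d = y
        · subst hdy
          exact JL_clr_r _
        have h5 : e d ≠ x := fun h => hdy ((hex d h).trans hexy)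
        have h6 : e d ≠ y := fun h => hdx ((hey d h).trans heyx)
        rw [JL_join_of hdx hdy h5 h6] at hd
        rw [JL_clr_of _ hdx hdy]
        exact h1.2 d hd
    · exact (hK _ _ fun z hz1 hz2 => (JL_clr_of _ hz1 hz2).symm).1 Φ.2.2.1
    · obtain ⟨⟨f, hf⟩, ⟨Φ, h1, h2⟩⟩ := q
      constructor
      · intro d g
        by_cases hdx : d = x
        · subst hdx
          rw [hexy, JL_ext_l, JL_ext_r _ _ _ hxy]
        by_cases hdy : d = y
        · subst hdy
          rw [heyx, JL_ext_l, JL_ext_r _ _ _ hxy, hαy]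
          simp
        have h5 : e d ≠ x := fun h => hdy ((hex d h).trans hexy)
        have h6 : e d ≠ y := fun h => hdx ((hey d h).trans heyx)
        have h7 := h1.1 d g
        rw [JL_join_of hdx hdy h5 h6, JL_jv_of hdx hdy h5 h6] at h7
        rw [JL_ext_of _ _ _ h5 h6, JL_ext_of _ _ _ hdx hdy]
        exact h7
      · intro d hd
        have hdx : d ≠ x := fun h => hx (by rw [← h]; exact hd)
        have hdy : d ≠ y := fun h => hy (by rw [← h]; exact hd)
        rw [JL_ext_of _ _ _ hdx hdy]
        refine h1.2 d ?_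
        rw [JL_join_of hdx hdy (by rw [hd]; exact hdx) (by rw [hd]; exact hdy), hd]
    · obtain ⟨⟨f, hf⟩, ⟨Φ, h1, h2⟩⟩ := q
      exact (hK _ _ fun z hz1 hz2 => JL_ext_of _ _ _ hz1 hz2).2 h2
    · obtain ⟨⟨f, hf⟩, ⟨Φ, h1, h2⟩⟩ := q
      intro g
      rw [JL_ext_l, JL_ext_r _ _ _ hxy]
      have h4 := hf (g + β)
      show f (g + β) = f (g + α x)
      rw [← h4]
      congr 1
      abel
    · rintro ⟨Φ, h1, h2, h3⟩
      apply Subtype.ext
      funext d
      by_cases hdx : d = x
      · subst hdx
        show JL_ext d y _ _ _ d = Φ d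
        rw [JL_ext_l]
        funext g
        have h4 := h1.1 d g
        rw [hexy] at h4
        exact h4
      by_cases hdy : d = y
      · subst hdy
        show JL_ext x d _ _ _ d = Φ d
        rw [JL_ext_r _ _ _ hxy]
      show JL_ext x y _ _ (JL_clr x y Φ) d = Φ d
      rw [JL_ext_of _ _ _ hdx hdy, JL_clr_of _ hdx hdy]
    · rintro ⟨⟨f, hf⟩, ⟨Φ, h1, h2⟩⟩
      refine Prod.ext (Subtype.ext ?_) (Subtype.ext ?_)
      · exact JL_ext_r _ _ _ hxy
      · funext d
        by_cases hdx : d = x
        · subst hdx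
          show JL_clr d y _ d = Φ d
          rw [JL_clr_l, h1.2 d (join_left e d y)]
        by_cases hdy : d = y
        · subst hdy
          show JL_clr x d _ d = Φ d
          rw [JL_clr_r, h1.2 d (join_right e x d)]
        show JL_clr x y (JL_ext x y _ _ Φ) d = Φ d
        rw [JL_clr_of _ hdx hdy, JL_ext_of _ _ _ hdx hdy]
  · have hlv : lv e α x y β = 0 := by
      unfold lv
      rw [if_neg hexy]
    have heyx : e y ≠ x := fun h => hexy (by rw [← h, he])
    rw [hlv, pow_zero, one_mul]
    refine Nat.card_congr ?_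
    refine
      { toFun := fun Φ => ⟨JL_clr x y Φ.1, ?_, ?_⟩
        invFun := fun q => ⟨JL_ext x y (fun g => q.1 (e x) (g + α x))
          (fun g => q.1 (e y) (g + α y)) q.1, ?_, ?_, ?_⟩
        left_inv := ?_
        right_inv := ?_ }
    · obtain ⟨Φ, h1, h2, h3⟩ := Φ
      constructor
      · intro d g
        by_cases hdx : d = x
        · subst hdx
          rw [join_left, JL_jv_l, add_zero]
        by_cases hdy : d = y
        · subst hdy
          rw [join_right, JL_jv_r, add_zero]
        by_cases h5 : e d = x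
        · rw [JL_join_x hdx hdy h5, JL_jv_x hdx hdy h5, JL_clr_of _ heyx hy,
            JL_clr_of _ hdx hdy]
          have h7 := h1.1 y (g + α d + β)
          have h8 := h3 (g + α d)
          have h9 := h1.1 d g
          rw [h5] at h9
          show Φ (e y) (g + (α d + β + α y)) = Φ d g
          rw [← h9, ← h8, ← h7]
          congr 1
          abel
        by_cases h6 : e d = y
        · rw [JL_join_y hdx hdy h5 h6, JL_jv_y hdx hdy h5 h6, JL_clr_of _ hx hexy,
            JL_clr_of _ hdx hdy]
          have h7 := h1.1 x (g + α d - β)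
          have h8 := h3 (g + α d - β)
          rw [sub_add_cancel] at h8
          have h9 := h1.1 d g
          rw [h6] at h9
          show Φ (e x) (g + (α d - β + α x)) = Φ d g
          rw [← h9, h8, ← h7]
          congr 1
          abel
        rw [JL_join_of hdx hdy h5 h6, JL_jv_of hdx hdy h5 h6, JL_clr_of _ h5 h6,
          JL_clr_of _ hdx hdy]
        exact h1.1 d g
      · intro d hd
        by_cases hdx : d = x
        · subst hdx
          exact JL_clr_l _
        by_cases hdy : d = y
        · subst hdy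
          exact JL_clr_r _
        by_cases h5 : e d = x
        · exfalso
          rw [JL_join_x hdx hdy h5] at hd
          apply hxy
          rw [← h5, ← hd, he]
        by_cases h6 : e d = y
        · exfalso
          rw [JL_join_y hdx hdy h5 h6] at hd
          apply hxy
          rw [← h6, ← hd, he]
        rw [JL_join_of hdx hdy h5 h6] at hd
        rw [JL_clr_of _ hdx hdy]
        exact h1.2 d hd
    · exact (hK _ _ fun z hz1 hz2 => (JL_clr_of _ hz1 hz2).symm).1 Φ.2.2.1
    · obtain ⟨Φ, h1, h2⟩ := q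
      constructor
      · intro d g
        by_cases hdx : d = x
        · subst hdx
          rw [JL_ext_l, JL_ext_of _ _ _ hx hexy]
        by_cases hdy : d = y
        · subst hdy
          rw [JL_ext_r _ _ _ hxy, JL_ext_of _ _ _ heyx hy]
        by_cases h5 : e d = x
        · have h8 : α x = - α d := by rw [← h5]; exact hα.1 d
          rw [h5, JL_ext_l, JL_ext_of _ _ _ hdx hdy, ← hex d h5, h8]
          simp
        by_cases h6 : e d = y
        · have h8 : α y = - α d := by rw [← h6]; exact hα.1 d
          rw [h6, JL_ext_r _ _ _ hxy, JL_ext_of _ _ _ hdx hdy, ← hey d h6, h8]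
          simp
        have h7 := h1.1 d g
        rw [JL_join_of hdx hdy h5 h6, JL_jv_of hdx hdy h5 h6] at h7
        rw [JL_ext_of _ _ _ h5 h6, JL_ext_of _ _ _ hdx hdy]
        exact h7
      · intro d hd
        have hdx : d ≠ x := fun h => hx (by rw [← h]; exact hd)
        have hdy : d ≠ y := fun h => hy (by rw [← h]; exact hd)
        rw [JL_ext_of _ _ _ hdx hdy]
        refine h1.2 d ?_
        rw [JL_join_of hdx hdy (by rw [hd]; exact hdx) (by rw [hd]; exact hdy), hd]
    · obtain ⟨Φ, h1, h2⟩ := q
      exact (hK _ _ fun z hz1 hz2 => JL_ext_of _ _ _ hz1 hz2).2 h2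
    · obtain ⟨Φ, h1, h2⟩ := q
      intro g
      rw [JL_ext_l, JL_ext_r _ _ _ hxy]
      have h7 := h1.1 (e x) (g + α x)
      rw [JL_join_x hx hexy (he x), JL_jv_x hx hexy (he x), hα.1 x] at h7
      show Φ (e y) (g + β + α y) = Φ (e x) (g + α x)
      rw [← h7]
      congr 1
      abel
    · rintro ⟨Φ, h1, h2, h3⟩
      apply Subtype.ext
      funext d
      by_cases hdx : d = x
      · subst hdx
        show JL_ext d y _ _ _ d = Φ d
        rw [JL_ext_l]
        funext g
        show JL_clr d y Φ (e d) (g + α d) = Φ d g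
        rw [JL_clr_of _ hx hexy]
        exact h1.1 d g
      by_cases hdy : d = y
      · subst hdy
        show JL_ext x d _ _ _ d = Φ d
        rw [JL_ext_r _ _ _ hxy]
        funext g
        show JL_clr x d Φ (e d) (g + α d) = Φ d g
        rw [JL_clr_of _ heyx hy]
        exact h1.1 d g
      show JL_ext x y _ _ (JL_clr x y Φ) d = Φ d
      rw [JL_ext_of _ _ _ hdx hdy, JL_clr_of _ hdx hdy]
    · rintro ⟨Φ, h1, h2⟩
      apply Subtype.ext
      funext d
      by_cases hdx : d = x
      · subst hdx
        show JL_clr d y _ d = Φ d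
        rw [JL_clr_l, h1.2 d (join_left e d y)]
      by_cases hdy : d = y
      · subst hdy
        show JL_clr x d _ d = Φ d
        rw [JL_clr_r, h1.2 d (join_right e x d)]
      show JL_clr x y (JL_ext x y _ _ Φ) d = Φ d
      rw [JL_clr_of _ hdx hdy, JL_ext_of _ _ _ hdx hdy]

end Pool.Agent.SYM
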